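import Mathlib
import Pool.Agent.Lib.MP_d3a69a_an.Final

open Pool.Agent.Lib.MP_d3a69a_an

namespace Pool.Agent.Results.MP_d3a69a_an.TwoSummingIffOneLt

/-- Let `α ≥ 1` and let `n > α` be an integer. For every symbol `φ ∈ B_∞^{-α}` there is exactly
one bounded operator `H_φ : B_1^α → B_∞^{-α}` given by the Hankel coefficient formula on the
polynomials, and all these operators `H_φ` are 2-absolutely summing if and only if `α > 1`. -/
theorem result (α : ℝ) (n : ℕ) (hα : 1 ≤ α) (hn : α < n) :
    (∀ φ : Growth α, ∃! H : Besov α n →L[ℂ] Growth α, IsHankel φ H) ∧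
    ((∀ (φ : Growth α) (H : Besov α n →L[ℂ] Growth α), IsHankel φ H → IsTwoSumming H)
      ↔ 1 < α) := by
  refine ⟨exists_unique_hankel hα n hn, ?_, fun h φ H hH => isTwoSumming_of_one_lt h n hn φ H hH⟩
  intro h
  rcases eq_or_lt_of_le hα with h1 | h1
  · subst h1
    obtain ⟨φ, H, hH, hnot⟩ := not_twoSumming_one n hn
    exact absurd (h φ H hH) hnot
  · exact h1

end Pool.Agent.Results.MP_d3a69a_an.TwoSummingIffOneLt
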